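import Pool.Agent.Helper6.LPB.St

set_option autoImplicit false

namespace Pool.Agent.Helper56.LPB

open Finset
open Pool.Agent.Helper60.LZ (js)
open Pool.Agent.Helper6.LP Pool.Agent.Helper6.LPB

section field

variable {F : Type} [Field F] [Fintype F] [DecidableEq F]

private theorem sum1 (hF : ringChar F ≠ 2) (h4 : (4 : F) ≠ 0) :
    ∑ s : F, quadraticChar F (s ^ 2 + 4 * s) = -1 := by
  have h1 : ∀ s : F, quadraticChar F (s ^ 2 + 4 * s) =
      quadraticChar F (1 + 4 * s⁻¹) - if s = 0 then 1 else 0 := by
    intro s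
    by_cases hs : s = 0
    · subst hs
      simp
    · rw [if_neg hs, sub_zero]
      have h2 : s ^ 2 + 4 * s = s ^ 2 * (1 + 4 * s⁻¹) := by
        field_simp
      rw [h2, map_mul, quadraticChar_sq_one' hs, one_mul]
  have hb : Function.Bijective (fun s : F => 1 + 4 * s⁻¹) := by
    rw [← Finite.injective_iff_bijective]
    intro s s' h
    simp only [add_right_inj] at h
    exact inv_injective (mul_left_cancel₀ h4 h)
  rw [Finset.sum_congr rfl fun s _ => h1 s, Finset.sum_sub_distrib, Finset.sum_ite_eq' univ (0 : F)]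
  have h3 := hb.sum_comp (fun w => quadraticChar F w)
  rw [h3, quadraticChar_sum_zero hF]
  simp

private theorem sum2 (hF : ringChar F ≠ 2) (h4 : (4 : F) ≠ 0) :
    ∑ x : F, quadraticChar F (x ^ 2 - 4) = -1 := by
  rw [← sum1 hF h4]
  have hb : Function.Bijective (fun x : F => x - 2) := by
    rw [← Finite.injective_iff_bijective]
    intro s s' h
    simpa using h
  have h3 := hb.sum_comp (fun s => quadraticChar F (s ^ 2 + 4 * s))
  rw [← h3]
  refine Finset.sum_congr rfl fun x _ => ?_
  congr 1
  ring

end field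

private theorem js_eq (u l : ℕ) [Fact l.Prime] :
    js u l = ((quadraticChar (ZMod l) (((u : ZMod l)) ^ 2 - 4) : ℤ) : ℝ) := by
  unfold js
  rw [← jacobiSym.legendreSym.to_jacobiSym]
  unfold legendreSym
  have h3 : ((((u : ℤ) ^ 2 - 4 : ℤ)) : ZMod l) = ((u : ZMod l)) ^ 2 - 4 := by
    push_cast
    ring
  rw [h3]

private theorem js_abs (t l : ℕ) : |js t l| ≤ 1 := by
  unfold js
  rcases jacobiSym.trichotomy ((t : ℤ) ^ 2 - 4) l with h | h | h <;> rw [h] <;> norm_num

private theorem chars (l : ℕ) [Fact l.Prime] (h3 : 3 < l) :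
    ringChar (ZMod l) ≠ 2 ∧ (4 : ZMod l) ≠ 0 := by
  constructor
  · rw [ZMod.ringChar_zmod_n]
    omega
  · intro h
    have h1 : ((4 : ℕ) : ZMod l) = 0 := by exact_mod_cast h
    rw [ZMod.natCast_eq_zero_iff] at h1
    have h2 : l ∣ 2 ^ 2 := by
      norm_num
      exact h1
    have h4 : l ∣ 2 := (Fact.out : l.Prime).dvd_of_dvd_pow h2
    have := Nat.le_of_dvd (by norm_num) h4
    omega

private theorem total (l : ℕ) [Fact l.Prime] (h3 : 3 < l) : ∑ u ∈ range l, js u l = -1 := by
  have : NeZero l := ⟨(Fact.out : l.Prime).ne_zero⟩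
  obtain ⟨c1, c2⟩ := chars l h3
  have h1 : ∑ u ∈ range l, js u l =
      ((∑ x : ZMod l, quadraticChar (ZMod l) (x ^ 2 - 4) : ℤ) : ℝ) := by
    push_cast
    refine Finset.sum_bij' (fun j _ => (j : ZMod l)) (fun z _ => z.val)
      (fun _ _ => Finset.mem_univ _) (fun z _ => Finset.mem_range.2 (ZMod.val_lt z))
      (fun j hj => ZMod.val_natCast_of_lt (Finset.mem_range.1 hj))
      (fun z _ => ZMod.natCast_zmod_val z) (fun j _ => js_eq j l)
  rw [h1, sum2 c1 c2]
  norm_num

private theorem js_two (l : ℕ) [Fact l.Prime] : js 2 l = 0 := by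
  rw [js_eq]
  have : ((2 : ℕ) : ZMod l) ^ 2 - 4 = 0 := by push_cast; ring
  rw [this]
  simp

private theorem js_neg_two (l : ℕ) [Fact l.Prime] (h : 3 < l) : js (l - 2) l = 0 := by
  rw [js_eq]
  have e : ((l - 2 : ℕ) : ZMod l) = -2 := by
    rw [Nat.cast_sub (by omega)]
    simp
  have : ((l - 2 : ℕ) : ZMod l) ^ 2 - 4 = 0 := by rw [e]; ring
  rw [this]
  simp

/-- at most three roots -/
private theorem three (y l : ℕ) [Fact l.Prime] (hy : ((y : ZMod l)) + 1 ≠ 0) :
    (SS 1 0 y l).card ≤ 3 := by
  classical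
  let f : Polynomial (ZMod l) := (Polynomial.C ((y : ZMod l) + 1) * Polynomial.X -
    Polynomial.C (y : ZMod l)) * (Polynomial.X ^ 2 +
      Polynomial.C ((y : ZMod l) ^ 2 - 2 * y) * Polynomial.X + Polynomial.C ((y : ZMod l) ^ 2))
  have hf1 : (Polynomial.C ((y : ZMod l) + 1) * Polynomial.X - Polynomial.C (y : ZMod l)) ≠ 0 := by
    intro h
    apply hy
    have := congrArg (fun p => Polynomial.coeff p 1) h
    simpa using this
  have hf2' : ∀ A B : ZMod l, (Polynomial.X ^ 2 + Polynomial.C A * Polynomial.X +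
      Polynomial.C B) ≠ 0 := by
    intro A B h
    have := congrArg (fun p => Polynomial.coeff p 2) h
    simp [Polynomial.coeff_X, Polynomial.coeff_C] at this
  have hf2 := hf2' ((y : ZMod l) ^ 2 - 2 * y) ((y : ZMod l) ^ 2)
  have hf : f ≠ 0 := mul_ne_zero hf1 hf2
  have hd : f.natDegree ≤ 3 := by
    refine Polynomial.natDegree_mul_le.trans ?_
    have d1 : (Polynomial.C ((y : ZMod l) + 1) * Polynomial.X -
      Polynomial.C (y : ZMod l)).natDegree ≤ 1 := by compute_degree
    have d2 : (Polynomial.X ^ 2 + Polynomial.C ((y : ZMod l) ^ 2 - 2 * y) * Polynomial.X +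
      Polynomial.C ((y : ZMod l) ^ 2)).natDegree ≤ 2 := by compute_degree
    omega
  have h1 : (SS 1 0 y l).card ≤ f.roots.toFinset.card := by
    refine Finset.card_le_card_of_injOn (fun s : ℕ => (s : ZMod l)) ?_ ?_
    · intro s hs
      have hs' := (Finset.mem_filter.1 hs).2
      rw [Finset.mem_coe, Multiset.mem_toFinset, Polynomial.mem_roots hf, Polynomial.IsRoot.def]
      have h2 : ((ff ((0 : ℕ) + ((1 : ℕ) : ℤ) * s) y : ℤ) : ZMod l) = 0 := by
        rw [ZMod.intCast_zmod_eq_zero_iff_dvd]
        exact hs'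
      unfold ff fa fb at h2
      push_cast at h2
      simp only [f, Polynomial.eval_mul, Polynomial.eval_sub, Polynomial.eval_add,
        Polynomial.eval_pow, Polynomial.eval_X, Polynomial.eval_C]
      rw [← h2]
      ring
    · intro s hs t ht h
      have hs' := Finset.mem_range.1 (Finset.mem_filter.1 hs).1
      have ht' := Finset.mem_range.1 (Finset.mem_filter.1 ht).1
      have := (ZMod.natCast_eq_natCast_iff' s t l).1 h
      rwa [Nat.mod_eq_of_lt hs', Nat.mod_eq_of_lt ht'] at this
  have h2 : f.roots.toFinset.card ≤ f.roots.card := Multiset.toFinset_card_le _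
  have h3 := Polynomial.card_roots' f
  omega

theorem hNLB (hL : StLOL) (hU : StLOP) : StNLB := by
  intro l hl h32
  have : Fact l.Prime := ⟨hl⟩
  have hN : (NN l : ℝ) = ∑ t ∈ range l, ((SS 1 0 t l).card : ℝ) := by
    unfold NN
    push_cast
    rfl
  have hjs1 : ∀ t, js t l ≤ 1 := fun t => (abs_le.1 (js_abs t l)).2
  constructor
  · -- lower bound
    have h1 : ∑ t ∈ Ico 5 l, ((SS 1 0 t l).card : ℝ) ≤ NN l := by
      rw [hN]
      refine Finset.sum_le_sum_of_subset_of_nonneg ?_ (fun _ _ _ => by positivity)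
      intro t ht
      rw [Finset.mem_Ico] at ht
      exact Finset.mem_range.2 ht.2
    have h2 : ∀ t ∈ Ico 5 l, 2 + js (t - 2) l - (if t = l - 1 then (3 : ℝ) else 0) -
        (if t = (l - 1) / 2 then (3 : ℝ) else 0) ≤ ((SS 1 0 t l).card : ℝ) := by
      intro t ht
      rw [Finset.mem_Ico] at ht
      have hj := hjs1 (t - 2)
      have hc : (0 : ℝ) ≤ ((SS 1 0 t l).card : ℝ) := by positivity
      by_cases e1 : t = l - 1
      · rw [if_pos e1]
        split_ifs <;> linarith
      by_cases e2 : t = (l - 1) / 2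
      · rw [if_neg e1, if_pos e2]
        linarith
      rw [if_neg e1, if_neg e2]
      have hnd : ¬ l ∣ t * (t - 4) * (t + 1) * (2 * t + 1) := by
        intro hd
        rcases (Nat.Prime.dvd_mul hl).1 hd with hd | hd
        · rcases (Nat.Prime.dvd_mul hl).1 hd with hd | hd
          · rcases (Nat.Prime.dvd_mul hl).1 hd with hd | hd
            · have := Nat.le_of_dvd (by omega) hd
              omega
            · have := Nat.le_of_dvd (by omega) hd
              omega
          · have := Nat.le_of_dvd (by omega) hd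
            omega
        · obtain ⟨k, hk⟩ := hd
          have hk2 : k < 2 := by
            by_contra hcon
            have : l * 2 ≤ l * k := Nat.mul_le_mul_left l (by omega)
            omega
          have hk1 : k = 1 := by
            rcases Nat.eq_zero_or_pos k with h | h
            · rw [h] at hk
              omega
            · omega
          rw [hk1] at hk
          omega
      have := hL t l hl h32 ht.1 hnd
      linarith
    have h3 := Finset.sum_le_sum h2
    rw [Finset.sum_sub_distrib, Finset.sum_sub_distrib, Finset.sum_add_distrib] at h3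
    have h4 : ∑ t ∈ Ico 5 l, (if t = l - 1 then (3 : ℝ) else 0) ≤ 3 := by
      rw [Finset.sum_ite_eq']
      split_ifs <;> norm_num
    have h5 : ∑ t ∈ Ico 5 l, (if t = (l - 1) / 2 then (3 : ℝ) else 0) ≤ 3 := by
      rw [Finset.sum_ite_eq']
      split_ifs <;> norm_num
    have h6 : ∑ _t ∈ Ico 5 l, (2 : ℝ) = 2 * l - 10 := by
      rw [Finset.sum_const, Nat.card_Ico, nsmul_eq_mul, Nat.cast_sub (by omega)]
      push_cast
      ring
    have h7 : ∑ t ∈ Ico 5 l, js (t - 2) l = ∑ u ∈ Ico 3 (l - 2), js u l := by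
      have := Finset.sum_Ico_add' (fun t => js (t - 2) l) 3 (l - 2) 2
      have e : l - 2 + 2 = l := by omega
      rw [e] at this
      rw [← this]
      refine Finset.sum_congr rfl fun u _ => ?_
      rw [Nat.add_sub_cancel]
    have h8 : ∑ u ∈ range l, js u l = (∑ u ∈ range 3, js u l + ∑ u ∈ Ico 3 (l - 2), js u l) +
        js (l - 2) l + js (l - 1) l := by
      rw [Finset.sum_range_add_sum_Ico _ (by omega : 3 ≤ l - 2)]
      have e : l = (l - 2) + 1 + 1 := by omega
      have : ∑ u ∈ range ((l - 2) + 1 + 1), js u l = ∑ u ∈ range (l - 2), js u l + js (l - 2) l +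
          js (l - 2 + 1) l := by
        rw [Finset.sum_range_succ, Finset.sum_range_succ]
      have e2 : l - 2 + 1 = l - 1 := by omega
      have e3 : l - 1 + 1 = l := by omega
      rw [e2, e3] at this
      exact this
    have h9 : ∑ u ∈ range 3, js u l = js 0 l + js 1 l + js 2 l := by
      rw [Finset.sum_range_succ, Finset.sum_range_succ, Finset.sum_range_succ, Finset.sum_range_zero,
        zero_add]
    have h10 := total l (by omega)
    rw [h8, h9, js_two, js_neg_two l (by omega)] at h10
    have a0 := hjs1 0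
    have a1 := hjs1 1
    have a2 := hjs1 (l - 1)
    rw [h6, h7] at h3
    linarith
  · -- upper bound
    have h1 : ∀ t ∈ range l, ((SS 1 0 t l).card : ℝ) ≤ 3 := by
      intro t _
      by_cases ht : 2 ≤ t
      · have h2 := (hU 1 0 l hl (by omega) (by
          intro hd
          have := Nat.le_of_dvd (by norm_num) hd
          omega)).1 t ht
        have := hjs1 (t - 2)
        linarith
      · have hy : ((t : ZMod l)) + 1 ≠ 0 := by
          intro h
          have h2 : ((t + 1 : ℕ) : ZMod l) = 0 := by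
            push_cast
            exact h
          rw [ZMod.natCast_eq_zero_iff] at h2
          have := Nat.le_of_dvd (by omega) h2
          omega
        exact_mod_cast three t l hy
    rw [hN]
    calc ∑ t ∈ range l, ((SS 1 0 t l).card : ℝ) ≤ ∑ _t ∈ range l, (3 : ℝ) := Finset.sum_le_sum h1
      _ = 3 * l := by
          rw [Finset.sum_const, card_range, nsmul_eq_mul]
          ring

end Pool.Agent.Helper56.LPB
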